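import Mathlib
import Pool.Agent.Q60.D3.Stm
import Pool.Agent.W437.HD.Fixed

/-!
# Project D3: descent (jobs L0 and S_hodge)
-/

namespace Pool.Agent.Q210.D3

open Pool.Agent.H204R3.CM Pool.Agent.Q60.D3 Pool.Agent.W437.HD

section

variable {H T κ : Type} [AddCommGroup H] [Module ℚ H] [AddCommGroup T] [Module ℂ T]

/-- The forms of weight `w` are a complex subspace. -/
def wSub (per : H →+ T) (w : ℤ) : Submodule ℂ (MultilinearMap ℚ (fun _ : κ => H) ℂ) where
  carrier := {F | HasWeight per F w}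
  zero_mem' := ⟨0, fun v => rfl, fun z _ u => by simp⟩
  add_mem' := by
    rintro F G ⟨ψ, h1, h2⟩ ⟨ψ', k1, k2⟩
    refine ⟨ψ + ψ', fun v => ?_, fun z hz u => ?_⟩
    · rw [add_apply, h1, k1]
      rfl
    · rw [add_apply, add_apply, h2 z hz, k2 z hz]
      ring
  smul_mem' := by
    rintro c F ⟨ψ, h1, h2⟩
    refine ⟨c • ψ, fun v => ?_, fun z hz u => ?_⟩
    · rw [smul_apply, h1]
      rfl
    · rw [smul_apply, smul_apply, h2 z hz, smul_eq_mul, smul_eq_mul]
      ring

theorem mem_wSub {per : H →+ T} {w : ℤ} {F : MultilinearMap ℚ (fun _ : κ => H) ℂ} :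
    F ∈ wSub per w ↔ HasWeight per F w := Iff.rfl

/-- A subspace of vectors stable under all automorphisms is stable under rational linear maps. -/
theorem lam_mem {B : Type} [Fintype B] (C : Submodule ℂ (B → ℂ))
    (hC : ∀ (σ : ℂ ≃+* ℂ), ∀ v ∈ C, (fun i => σ (v i)) ∈ C) {x : B → ℂ} (hx : x ∈ C)
    (lam : ℂ →ₗ[ℚ] ℚ) : (fun i => ((lam (x i) : ℚ) : ℂ)) ∈ C := by
  have key : ∀ x ∈ C, ∀ z : ℂ, (fun i => ((lam (z * x i) : ℚ) : ℂ)) ∈ C := by
    intro x hx
    rw [span_rational C hC] at hx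
    induction hx using Submodule.span_induction with
    | mem w hw =>
      obtain ⟨hw1, u, rfl⟩ := hw
      intro z
      have h1 : (fun i => ((lam (z * (u i : ℂ)) : ℚ) : ℂ)) =
          ((lam z : ℚ) : ℂ) • fun i => ((u i : ℚ) : ℂ) := by
        funext i
        have h2 : z * (u i : ℂ) = (u i) • z := by
          rw [Rat.smul_def, mul_comm]
        rw [h2, map_smul, smul_eq_mul, Pi.smul_apply, smul_eq_mul, Rat.cast_mul, mul_comm]
      rw [h1]
      exact Submodule.smul_mem _ _ hw1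
    | zero =>
      intro z
      have h1 : (fun i : B => ((lam (z * (0 : B → ℂ) i) : ℚ) : ℂ)) = 0 := by
        funext i
        simp
      rw [h1]
      exact Submodule.zero_mem _
    | add x y _ _ hx hy =>
      intro z
      have h1 : (fun i : B => ((lam (z * (x + y) i) : ℚ) : ℂ)) =
          (fun i => ((lam (z * x i) : ℚ) : ℂ)) + fun i => ((lam (z * y i) : ℚ) : ℂ) := by
        funext i
        rw [Pi.add_apply, Pi.add_apply, mul_add, map_add, Rat.cast_add]
      rw [h1]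
      exact Submodule.add_mem _ (hx z) (hy z)
    | smul c x _ hx =>
      intro z
      have h1 : (fun i : B => ((lam (z * (c • x) i) : ℚ) : ℂ)) =
          (fun i => ((lam ((z * c) * x i) : ℚ) : ℂ)) := by
        funext i
        rw [Pi.smul_apply, smul_eq_mul, mul_assoc]
      rw [h1]
      exact hx (z * c)
  have h := key x hx 1
  simpa using h

theorem conjF_apply (σ : ℂ ≃+* ℂ) (F : MultilinearMap ℚ (fun _ : κ => H) ℂ) (v : κ → H) :
    conjF σ F v = σ (F v) := rfl

theorem conjF_add (σ : ℂ ≃+* ℂ) (F G : MultilinearMap ℚ (fun _ : κ => H) ℂ) :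
    conjF σ (F + G) = conjF σ F + conjF σ G := by
  ext v
  rw [conjF_apply, add_apply, add_apply, map_add]
  rfl

theorem conjF_smul (σ : ℂ ≃+* ℂ) (c : ℂ) (F : MultilinearMap ℚ (fun _ : κ => H) ℂ) :
    conjF σ (c • F) = σ c • conjF σ F := by
  ext v
  rw [conjF_apply, smul_apply, smul_apply, smul_eq_mul, map_mul]
  rfl

theorem conjF_zero (σ : ℂ ≃+* ℂ) :
    conjF σ (0 : MultilinearMap ℚ (fun _ : κ => H) ℂ) = 0 := by
  ext v
  rw [conjF_apply, zero_apply, map_zero]

theorem conjF_conjF (σ τ : ℂ ≃+* ℂ) (F : MultilinearMap ℚ (fun _ : κ => H) ℂ) :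
    conjF σ (conjF τ F) = conjF (τ.trans σ) F := rfl

/-- The span of the conjugates. -/
noncomputable def cSpan (F : MultilinearMap ℚ (fun _ : κ => H) ℂ) :
    Submodule ℂ (MultilinearMap ℚ (fun _ : κ => H) ℂ) :=
  Submodule.span ℂ (Set.range fun σ : ℂ ≃+* ℂ => conjF σ F)

theorem conj_mem {F G : MultilinearMap ℚ (fun _ : κ => H) ℂ} (hG : G ∈ cSpan F) (τ : ℂ ≃+* ℂ) :
    conjF τ G ∈ cSpan F := by
  unfold cSpan at hG
  induction hG using Submodule.span_induction with
  | mem w hw =>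
    obtain ⟨σ, rfl⟩ := hw
    exact Submodule.subset_span ⟨σ.trans τ, rfl⟩
  | zero => rw [conjF_zero]; exact Submodule.zero_mem _
  | add x y _ _ hx hy => rw [conjF_add]; exact Submodule.add_mem _ hx hy
  | smul c x _ hx => rw [conjF_smul]; exact Submodule.smul_mem _ _ hx

/-- The values on a basis. -/
noncomputable def evB {ι : Type} (b : Module.Basis ι ℚ H) :
    MultilinearMap ℚ (fun _ : κ => H) ℂ →ₗ[ℂ] ((κ → ι) → ℂ) where
  toFun F := fun i => F fun k => b (i k)
  map_add' F G := rfl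
  map_smul' c F := rfl

theorem lam_mem_cSpan [Finite κ] [FiniteDimensional ℚ H]
    (F : MultilinearMap ℚ (fun _ : κ => H) ℂ) (lam : ℂ →ₗ[ℚ] ℚ) :
    cxM (lam.compMultilinearMap F) ∈ cSpan F := by
  classical
  have _ : Fintype κ := Fintype.ofFinite κ
  let b := Module.finBasis ℚ H
  let C : Submodule ℂ ((κ → Fin (Module.finrank ℚ H)) → ℂ) := (cSpan F).map (evB b)
  have hC : ∀ (σ : ℂ ≃+* ℂ), ∀ v ∈ C, (fun i => σ (v i)) ∈ C := by
    rintro σ _ ⟨G, hG, rfl⟩
    exact ⟨conjF σ G, conj_mem hG σ, rfl⟩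
  have hF : evB b F ∈ C :=
    ⟨F, Submodule.subset_span ⟨RingEquiv.refl ℂ, rfl⟩, rfl⟩
  obtain ⟨G, hG, h1⟩ := lam_mem C hC hF lam
  have h2 : G = cxM (lam.compMultilinearMap F) := by
    refine Module.Basis.ext_multilinear (fun _ => b) fun i => ?_
    exact congrFun h1 i
  rw [← h2]
  exact hG

end

/-- JOB L0. -/
theorem L0 : S_L0 := by
  intro X κ _ _ F hF lam
  have h1 : cSpan F ≤ wSub X.per 0 := by
    unfold cSpan
    rw [Submodule.span_le]
    rintro _ ⟨σ, rfl⟩
    exact hF σ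
  exact h1 (lam_mem_cSpan F lam)

/-- JOB L0, second part. -/
theorem hodge : S_hodge := by
  intro X κ _ _ f
  constructor
  · rintro ⟨ψ, h1, h2⟩
    refine ⟨Complex.reLm.compMultilinearMap ψ, fun v => ?_, fun z hz u => ?_⟩
    · change (ψ fun l => X.per (v l)).re = _
      rw [h1]
      change (((f v : ℚ) : ℂ)).re = _
      simp
    · change (ψ fun l => z • u l).re = (ψ u).re
      rw [h2 z hz, zpow_zero, one_mul]
  · rintro ⟨ψ, h1, h2⟩
    refine ⟨Complex.ofRealAm.toLinearMap.compMultilinearMap ψ, fun v => ?_, fun z hz u => ?_⟩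
    · change ((ψ fun l => X.per (v l) : ℝ) : ℂ) = _
      rw [h1]
      change (((f v : ℚ) : ℝ) : ℂ) = ((f v : ℚ) : ℂ)
      simp
    · change ((ψ fun l => z • u l : ℝ) : ℂ) = z ^ (0 : ℤ) * ((ψ u : ℝ) : ℂ)
      rw [h2 z hz, zpow_zero, one_mul]

end Pool.Agent.Q210.D3
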