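import Mathlib
import Pool.Agent.Q60.D3.Stm
import Pool.Agent.Q210.D3.L0

/-!
# Project D3, job T2: lists of factors
-/

namespace Pool.Agent.Q210.D3

open Pool.Agent.H204R3.CM Pool.Agent.Q60.D3

/-- A factor of a monomial. -/
inductive Fac (X : AV) : Type 1
  | det (A : AV) (n : ℕ) (D : KOn A n) (h : Fin n → (X.H →ₗ[ℚ] A.H))
      (hh : ∀ k, IsHom X A (h k)) : Fac X
  | bil (β : MultilinearMap ℚ (fun _ : Fin 2 => X.H) ℚ) (hβ : HasWeight X.per (cxM β) 0) : Fac X

variable {X Y : AV}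

/-- The number of the variables. -/
def Fac.N : Fac X → ℕ
  | .det _ n _ _ _ => n
  | .bil _ _ => 2

/-- The form. -/
noncomputable def Fac.F : (f : Fac X) → MultilinearMap ℚ (fun _ : Fin f.N => X.H) ℂ
  | .det _ _ D h _ => D.δ.toMultilinearMap.compLinearMap h
  | .bil β _ => cxM β

/-- The weight. -/
def Fac.wt : Fac X → ℕ → ℤ
  | .det _ _ D _ _, d => if D.d = d then D.s else 0
  | .bil _ _, _ => 0

/-- Is it a determinant of size three? -/
def Fac.three : Fac X → ℕ
  | .det _ n _ _ _ => if n = 3 then 1 else 0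
  | .bil _ _ => 0

/-- The variables of the product of a list. -/
def V : List (Fac X) → Type
  | [] => Empty
  | f :: l => Fin f.N ⊕ V l

instance instFV : (l : List (Fac X)) → Fintype (V l)
  | [] => inferInstanceAs (Fintype Empty)
  | f :: l => by
    have _ := instFV l
    exact inferInstanceAs (Fintype (Fin f.N ⊕ V l))

instance instDV : (l : List (Fac X)) → DecidableEq (V l)
  | [] => inferInstanceAs (DecidableEq Empty)
  | f :: l => by
    have _ := instDV l
    exact inferInstanceAs (DecidableEq (Fin f.N ⊕ V l))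

/-- The product of a list. -/
noncomputable def val : (l : List (Fac X)) → MultilinearMap ℚ (fun _ : V l => X.H) ℂ
  | [] => MultilinearMap.constOfIsEmpty ℚ (fun _ : Empty => X.H) (1 : ℂ)
  | f :: l => mulF f.F (val l)

theorem mulF_apply {H κ κ' : Type} [AddCommGroup H] [Module ℚ H]
    (F : MultilinearMap ℚ (fun _ : κ => H) ℂ) (G : MultilinearMap ℚ (fun _ : κ' => H) ℂ)
    (v : κ ⊕ κ' → H) :
    mulF F G v = F (fun k => v (Sum.inl k)) * G (fun k => v (Sum.inr k)) := rfl

theorem val_cons (f : Fac X) (l : List (Fac X)) (v : Fin f.N ⊕ V l → X.H) :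
    val (f :: l) v = f.F (fun k => v (Sum.inl k)) * val l (fun k => v (Sum.inr k)) := rfl

theorem good_eq (h3 : S_good_reindex) {κ κ' : Type} [Fintype κ] [DecidableEq κ] [Fintype κ']
    [DecidableEq κ'] (e : κ ≃ κ') {F : MultilinearMap ℚ (fun _ : κ => X.H) ℂ}
    {F' : MultilinearMap ℚ (fun _ : κ' => X.H) ℂ} (h : ∀ v, F' v = F fun k => v (e k))
    (hF : Good X κ F) : Good X κ' F' := by
  have h1 := h3 X κ κ' e F hF
  have h2 : F.domDomCongr e = F' := by
    ext v
    rw [h v]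
    rfl
  rwa [h2] at h1

theorem perm_val {l l' : List (Fac X)} (h : l.Perm l') :
    ∃ e : V l ≃ V l', ∀ v : V l' → X.H, val l' v = val l (fun k => v (e k)) := by
  induction h with
  | nil => exact ⟨Equiv.refl _, fun v => rfl⟩
  | cons x _ ih =>
    obtain ⟨e, he⟩ := ih
    refine ⟨Equiv.sumCongr (Equiv.refl (Fin x.N)) e, fun v => ?_⟩
    refine (val_cons _ _ v).trans ?_
    rw [he]
    rfl
  | swap x y l =>
    refine ⟨((Equiv.sumAssoc (Fin y.N) (Fin x.N) (V l)).symm.trans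
      ((Equiv.sumComm (Fin y.N) (Fin x.N)).sumCongr (Equiv.refl (V l)))).trans
      (Equiv.sumAssoc (Fin x.N) (Fin y.N) (V l)), fun v => ?_⟩
    refine (val_cons _ _ v).trans ?_
    rw [val_cons]
    refine Eq.trans ?_ (val_cons _ _ _).symm
    refine Eq.trans ?_ (congrArg _ (val_cons _ _ _).symm)
    refine (mul_left_comm _ _ _).trans ?_
    rfl
  | trans _ _ ih1 ih2 =>
    obtain ⟨e1, h1⟩ := ih1
    obtain ⟨e2, h2⟩ := ih2
    exact ⟨e1.trans e2, fun v => (h2 v).trans (h1 _)⟩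

theorem good_perm (h3 : S_good_reindex) {l l' : List (Fac X)} (h : l.Perm l')
    (hl : Good X (V l) (val l)) : Good X (V l') (val l') := by
  obtain ⟨e, he⟩ := perm_val h
  exact good_eq h3 e he hl

theorem isHom_comp {X Y Z : AV} {g : Y.H →ₗ[ℚ] Z.H} {f : X.H →ₗ[ℚ] Y.H} (hg : IsHom Y Z g)
    (hf : IsHom X Y f) : IsHom X Z (g.comp f) := by
  obtain ⟨C, hC⟩ := hg
  obtain ⟨D, hD⟩ := hf
  exact ⟨C.comp D, fun w => by rw [LinearMap.comp_apply, hD, hC]; rfl⟩

/-- Weights and homomorphisms. -/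
theorem hw_comp {κ : Type} {F : MultilinearMap ℚ (fun _ : κ => Y.H) ℂ} {w : ℤ}
    (hF : HasWeight Y.per F w) (g : κ → (X.H →ₗ[ℚ] Y.H)) (hg : ∀ k, IsHom X Y (g k)) :
    HasWeight X.per (F.compLinearMap g) w := by
  obtain ⟨ψ, h1, h2⟩ := hF
  choose C hC using hg
  refine ⟨ψ.compLinearMap fun k => (C k).restrictScalars ℝ, fun v => ?_, fun z hz u => ?_⟩
  · rw [MultilinearMap.compLinearMap_apply, MultilinearMap.compLinearMap_apply, ← h1]
    congr 1
    funext k
    exact hC k (v k)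
  · rw [MultilinearMap.compLinearMap_apply, MultilinearMap.compLinearMap_apply, ← h2 z hz]
    congr 1
    funext k
    exact (C k).map_smul z (u k)

/-- The pull-back of a factor. -/
def Fac.pull (g : Y.H →ₗ[ℚ] X.H) (hg : IsHom Y X g) : Fac X → Fac Y
  | .det A n D h hh => .det A n D (fun k => (h k).comp g) (fun k => isHom_comp (hh k) hg)
  | .bil β hβ => .bil (β.compLinearMap fun _ => g) (hw_comp hβ (fun _ => g) fun _ => hg)

theorem pull_wt (g : Y.H →ₗ[ℚ] X.H) (hg : IsHom Y X g) (f : Fac X) (d : ℕ) :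
    (f.pull g hg).wt d = f.wt d := by
  cases f <;> rfl

theorem pull_three (g : Y.H →ₗ[ℚ] X.H) (hg : IsHom Y X g) (f : Fac X) :
    (f.pull g hg).three = f.three := by
  cases f <;> rfl

theorem val_pull (g : Y.H →ₗ[ℚ] X.H) (hg : IsHom Y X g) (l : List (Fac X)) :
    ∃ e : V (l.map (Fac.pull g hg)) ≃ V l, ∀ v : V (l.map (Fac.pull g hg)) → Y.H,
      val (l.map (Fac.pull g hg)) v = val l (fun k => g (v (e.symm k))) := by
  induction l with
  | nil => exact ⟨Equiv.refl _, fun v => rfl⟩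
  | cons f l ih =>
    obtain ⟨e, he⟩ := ih
    cases f with
    | det A n D h hh =>
      refine ⟨Equiv.sumCongr (Equiv.refl (Fin n)) e, fun v => ?_⟩
      refine (val_cons _ _ v).trans ?_
      rw [he]
      rfl
    | bil β hβ =>
      refine ⟨Equiv.sumCongr (Equiv.refl (Fin 2)) e, fun v => ?_⟩
      refine (val_cons _ _ v).trans ?_
      rw [he]
      rfl

theorem isHom_fst (X E : AV) : IsHom (X.prod E) X (LinearMap.fst ℚ X.H E.H) :=
  ⟨LinearMap.fst ℂ X.T E.T, fun _ => rfl⟩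

theorem isHom_snd (X E : AV) : IsHom (X.prod E) E (LinearMap.snd ℚ X.H E.H) :=
  ⟨LinearMap.snd ℂ X.T E.T, fun _ => rfl⟩

/-- A list is balanced. -/
def LBal (l : List (Fac X)) : Prop := ∀ d : ℕ, (l.map fun f => f.wt d).sum = 0

/-- The number of determinants of size three. -/
def cnt (l : List (Fac X)) : ℕ := (l.map Fac.three).sum

theorem LBal.perm {l l' : List (Fac X)} (h : l.Perm l') (hl : LBal l) : LBal l' := by
  intro d
  rw [← hl d]
  exact ((h.map _).sum_eq).symm

theorem cnt_perm {l l' : List (Fac X)} (h : l.Perm l') : cnt l = cnt l' := (h.map _).sum_eq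

/-- The elliptic curve for a determinant of size three. -/
theorem ell (h12 : S_ell) {A : AV} {n : ℕ} (D : KOn A n) :
    ∃ (E : AV) (b : Module.Basis (Fin 2) ℚ E.H) (K L : KOn E 1),
      K.d = D.d ∧ L.d = D.d ∧ L.μ = D.μ ∧ K.s = D.s ∧ L.s = -D.s ∧
      (K.δ fun _ => b 0) * (L.δ fun _ => b 1) - (K.δ fun _ => b 1) * (L.δ fun _ => b 0) ≠ 0 := by
  obtain ⟨E, b, K, L, a1, a2, a3, a4, a5, a6, a7⟩ := h12 D.d D.hd D.μ D.hμ
  rcases D.hs with hs | hs
  · exact ⟨E, b, K, L, a1, a2, a4, by rw [a5, hs], by rw [a6, hs], a7⟩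
  · refine ⟨E, b, L, K, a2, a1, a3, by rw [a6, hs], by rw [a5, hs]; rfl, fun h => a7 ?_⟩
    linear_combination -h

/-- The induction step. -/
theorem step (h3 : S_good_reindex) (h6 : S_ins) (h7 : S_pol) (h11 : S_weil) (h12 : S_ell)
    {A : AV} (D : KOn A 3) (h : Fin 3 → (X.H →ₗ[ℚ] A.H)) (hh : ∀ k, IsHom X A (h k))
    (l : List (Fac X)) (hl : LBal (.det A 3 D h hh :: l))
    (IH : ∀ (Y : AV) (l' : List (Fac Y)), cnt l' = cnt l → LBal l' → Good Y (V l') (val l')) :
    Good X (V (.det A 3 D h hh :: l)) (val (.det A 3 D h hh :: l)) := by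
  obtain ⟨E, b, K, L, a1, a2, a3, a4, a5, a6⟩ := ell h12 D
  let kf : Fac (X.prod E) := .det E 1 K (fun _ => LinearMap.snd ℚ X.H E.H) fun _ => isHom_snd X E
  let l' : List (Fac (X.prod E)) := l.map (Fac.pull (LinearMap.fst ℚ X.H E.H) (isHom_fst X E))
  have hcnt : cnt (kf :: l') = cnt l := by
    unfold cnt
    rw [List.map_cons, List.sum_cons]
    have e1 : kf.three = 0 := rfl
    have e2 : List.map Fac.three l' = List.map Fac.three l := by
      rw [List.map_map]
      refine List.map_congr_left fun f _ => ?_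
      exact pull_three _ _ f
    rw [e1, e2, zero_add]
  have hbal : LBal (kf :: l') := by
    intro d
    have e0 := hl d
    rw [List.map_cons, List.sum_cons] at e0 ⊢
    have e1 : kf.wt d = (Fac.det A 3 D h hh : Fac X).wt d := by
      change (if K.d = d then K.s else 0) = (if D.d = d then D.s else 0)
      rw [a1, a4]
    have e2 : List.map (fun f => f.wt d) l' = List.map (fun f => f.wt d) l := by
      rw [List.map_map]
      refine List.map_congr_left fun f _ => ?_
      exact pull_wt _ _ f d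
    rw [e1, e2, e0]
  have hg1 := IH _ (kf :: l') hcnt hbal
  obtain ⟨e, he⟩ := val_pull (X := X) (Y := X.prod E) (LinearMap.fst ℚ X.H E.H)
    (isHom_fst X E) l
  -- the first good form
  let e2 : Fin 1 ⊕ V l' ≃ V l ⊕ Fin 1 := (Equiv.sumComm (Fin 1) (V l')).trans
    (Equiv.sumCongr e (Equiv.refl (Fin 1)))
  let F' : MultilinearMap ℚ (fun _ : V l ⊕ Fin 1 => (X.prod E).H) ℂ :=
    MultilinearMap.domDomCongr e2 (val (kf :: l'))
  have hF' : Good (X.prod E) (V l ⊕ Fin 1) F' := good_eq h3 e2 (fun v => rfl) hg1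
  -- the second good form
  let G0 : MultilinearMap ℚ (fun _ : Fin 3 ⊕ Fin 1 => (A.prod E).H) ℂ :=
    mulF (D.δ.toMultilinearMap.compLinearMap fun _ => LinearMap.fst ℚ A.H E.H)
      (L.δ.toMultilinearMap.compLinearMap fun _ => LinearMap.snd ℚ A.H E.H)
  have hG0 : Good (A.prod E) (Fin 3 ⊕ Fin 1) G0 := h11 A E D L a2 a3 a5 G0 fun v => rfl
  let G' : MultilinearMap ℚ (fun _ : Fin 3 ⊕ Fin 1 => (X.prod E).H) ℂ :=
    mulF (D.δ.toMultilinearMap.compLinearMap fun k => (h k).comp (LinearMap.fst ℚ X.H E.H))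
      (L.δ.toMultilinearMap.compLinearMap fun _ => LinearMap.snd ℚ X.H E.H)
  have hG' : Good (X.prod E) (Fin 3 ⊕ Fin 1) G' :=
    h7 X A E D.δ L.δ G0 (fun v => rfl) hG0 h hh G' fun v => rfl
  have hfin := h6 X E (V l) (Fin 3) b K.δ L.δ a6 (val l)
    (D.δ.toMultilinearMap.compLinearMap h) F' G' (fun v => ?_) (fun v => rfl) hF' hG'
  · exact good_eq h3 (Equiv.sumComm (V l) (Fin 3)) (fun v => mul_comm _ _) hfin
  · have e5 : (fun k => (LinearMap.fst ℚ X.H E.H) (v (e2 (Sum.inr (e.symm k))))) =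
        fun k => (v (Sum.inl k)).1 := by
      funext k
      change (v (Sum.inl (e (e.symm k)))).1 = _
      rw [Equiv.apply_symm_apply]
    have e6 : val l' (fun k => v (e2 (Sum.inr k))) = val l (fun k => (v (Sum.inl k)).1) :=
      (he fun k => v (e2 (Sum.inr k))).trans (congrArg (val l) e5)
    change kf.F (fun k => v (e2 (Sum.inl k))) * val l' (fun k => v (e2 (Sum.inr k))) = _
    rw [e6, mul_comm]
    rfl

end Pool.Agent.Q210.D3
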