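import Mathlib
import Pool.Agent.Q60.D3.Stm
import Pool.Agent.Q210.D3.L0
import Pool.Agent.Q210.D3.T2a

/-!
# Project D3, job T2: the balanced monomials are good
-/

namespace Pool.Agent.Q210.D3

open Pool.Agent.H204R3.CM Pool.Agent.Q60.D3

variable {X Y : AV}

/-! ## Forms of degree two -/

theorem hw_reindex {H T κ κ' : Type} [AddCommGroup H] [Module ℚ H] [AddCommGroup T] [Module ℂ T]
    {per : H →+ T} {F : MultilinearMap ℚ (fun _ : κ => H) ℂ} {w : ℤ} (hF : HasWeight per F w)
    (e : κ ≃ κ') : HasWeight per (F.domDomCongr e) w := by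
  obtain ⟨ψ, h1, h2⟩ := hF
  exact ⟨ψ.domDomCongr e, fun v => h1 fun k => v (e k), fun z hz u => h2 z hz fun k => u (e k)⟩

theorem hw_alt {H T κ : Type} [AddCommGroup H] [Module ℚ H] [AddCommGroup T] [Module ℂ T]
    [Fintype κ] [DecidableEq κ]
    {per : H →+ T} {F : MultilinearMap ℚ (fun _ : κ => H) ℂ} {w : ℤ} (hF : HasWeight per F w) :
    HasWeight per (MultilinearMap.alternatization F).toMultilinearMap w := by
  have h1 : (MultilinearMap.alternatization F).toMultilinearMap =
      ∑ σ : Equiv.Perm κ, ((Equiv.Perm.sign σ : ℤ) : ℂ) • F.domDomCongr σ := by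
    ext v
    rw [AlternatingMap.coe_multilinearMap, MultilinearMap.alternatization_apply,
      sum_apply]
    refine Finset.sum_congr rfl fun σ _ => ?_
    rw [smul_apply, smul_eq_mul, ← zsmul_eq_mul]
    rfl
  rw [h1]
  refine Submodule.sum_mem (wSub (κ := κ) per w) fun σ _ => ?_
  exact Submodule.smul_mem _ _ (hw_reindex hF σ)

theorem alt_cxM {H κ : Type} [AddCommGroup H] [Module ℚ H] [Fintype κ] [DecidableEq κ]
    (β : MultilinearMap ℚ (fun _ : κ => H) ℚ) :
    MultilinearMap.alternatization (cxM β) = cx (MultilinearMap.alternatization β) := by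
  ext v
  change _ = ((MultilinearMap.alternatization β v : ℚ) : ℂ)
  rw [MultilinearMap.alternatization_apply, MultilinearMap.alternatization_apply, Rat.cast_sum]
  refine Finset.sum_congr rfl fun σ _ => ?_
  rw [Units.smul_def, Units.smul_def, zsmul_eq_mul, zsmul_eq_mul, Rat.cast_mul]
  change _ * ((β.domDomCongr σ v : ℚ) : ℂ) = _
  norm_cast

/-- Rational forms of degree two and weight zero are good. -/
theorem good_two (h9 : S_hodge) {κ : Type} [Fintype κ] [DecidableEq κ] (hκ : Nat.card κ = 2)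
    (β : MultilinearMap ℚ (fun _ : κ => X.H) ℚ) (hβ : HasWeight X.per (cxM β) 0) :
    Good X κ (cxM β) := by
  unfold Good
  rw [alt_cxM]
  refine Submodule.subset_span ⟨_, Gen.divisor hκ _ ?_, rfl⟩
  rw [← h9, ← alt_cxM]
  exact hw_alt hβ

/-- A complex valued form is a combination of its rational components. -/
theorem decomp {H κ : Type} [AddCommGroup H] [Module ℚ H] [FiniteDimensional ℚ H] [Finite κ]
    (F : MultilinearMap ℚ (fun _ : κ => H) ℂ) :
    ∃ (n : ℕ) (z : Fin n → ℂ) (lam : Fin n → (ℂ →ₗ[ℚ] ℚ)),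
      F = ∑ j, z j • cxM ((lam j).compMultilinearMap F) := by
  classical
  have _ : Fintype κ := Fintype.ofFinite κ
  let b := Module.finBasis ℚ H
  let W : Submodule ℚ ℂ :=
    Submodule.span ℚ (Set.range fun i : κ → Fin (Module.finrank ℚ H) => F fun k => b (i k))
  have hW : FiniteDimensional ℚ W := FiniteDimensional.span_of_finite ℚ (Set.finite_range _)
  have hF : ∀ v, F v ∈ W := by
    intro v
    have h1 : W.mkQ.compMultilinearMap F = 0 := by
      refine Module.Basis.ext_multilinear (fun _ => b) fun i => ?_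
      change W.mkQ (F fun k => b (i k)) = 0
      rw [Submodule.mkQ_apply, Submodule.Quotient.mk_eq_zero]
      exact Submodule.subset_span ⟨i, rfl⟩
    have h2 : W.mkQ (F v) = 0 := by
      change W.mkQ.compMultilinearMap F v = 0
      rw [h1]
      rfl
    rwa [Submodule.mkQ_apply, Submodule.Quotient.mk_eq_zero] at h2
  obtain ⟨g, hg⟩ := LinearMap.exists_leftInverse_of_injective W.subtype (Submodule.ker_subtype W)
  let c := Module.finBasis ℚ W
  refine ⟨Module.finrank ℚ W, fun j => (c j : ℂ), fun j => (c.coord j).comp g, ?_⟩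
  ext v
  rw [sum_apply]
  have h3 : g (F v) = ⟨F v, hF v⟩ := by
    have h4 := LinearMap.congr_fun hg ⟨F v, hF v⟩
    exact h4
  have h5 := congrArg (fun w : W => (w : ℂ)) (c.sum_repr ⟨F v, hF v⟩)
  simp only [Submodule.coe_sum, Submodule.coe_smul] at h5
  rw [← h5]
  refine Finset.sum_congr rfl fun j _ => ?_
  rw [smul_apply]
  change _ = (c j : ℂ) • (((c.coord j) (g (F v)) : ℚ) : ℂ)
  rw [h3, Module.Basis.coord_apply, smul_eq_mul, mul_comm, Rat.smul_def]

theorem hw_mul {H T κ κ' : Type} [AddCommGroup H] [Module ℚ H] [AddCommGroup T] [Module ℂ T]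
    {per : H →+ T} {F : MultilinearMap ℚ (fun _ : κ => H) ℂ}
    {G : MultilinearMap ℚ (fun _ : κ' => H) ℂ} {w w' : ℤ} (hF : HasWeight per F w)
    (hG : HasWeight per G w') : HasWeight per (mulF F G) (w + w') := by
  obtain ⟨ψ, h1, h2⟩ := hF
  obtain ⟨χ, k1, k2⟩ := hG
  refine ⟨(LinearMap.mul' ℝ ℂ).compMultilinearMap (ψ.domCoprod χ), fun v => ?_,
    fun z hz u => ?_⟩
  · change (ψ fun k => per (v (Sum.inl k))) * (χ fun k => per (v (Sum.inr k))) = _
    rw [h1, k1]
    rfl
  · change (ψ fun k => z • u (Sum.inl k)) * (χ fun k => z • u (Sum.inr k)) =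
      z ^ (w + w') * ((ψ fun k => u (Sum.inl k)) * (χ fun k => u (Sum.inr k)))
    have hz0 : z ≠ 0 := by
      intro h
      rw [h, norm_zero] at hz
      exact one_ne_zero hz.symm
    rw [h2 z hz, k2 z hz, zpow_add₀ hz0]
    ring

theorem conjF_mul {H κ κ' : Type} [AddCommGroup H] [Module ℚ H] (σ : ℂ ≃+* ℂ)
    (F : MultilinearMap ℚ (fun _ : κ => H) ℂ) (G : MultilinearMap ℚ (fun _ : κ' => H) ℂ) :
    conjF σ (mulF F G) = mulF (conjF σ F) (conjF σ G) := by
  ext v
  rw [conjF_apply, mulF_apply, mulF_apply, map_mul]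
  rfl

theorem chi_eq {d : ℕ} {μ ν : ℂ} (hμ : μ * μ = -(d : ℂ)) (hν : ν * ν = -(d : ℂ)) (σ : ℂ ≃+* ℂ) :
    chi μ σ = chi ν σ := by
  have h1 : μ = ν ∨ μ = -ν := by
    have h2 : (μ - ν) * (μ + ν) = 0 := by linear_combination hμ - hν
    rcases mul_eq_zero.1 h2 with h | h
    · exact Or.inl (by linear_combination h)
    · exact Or.inr (by linear_combination h)
  rcases h1 with h | h
  · rw [h]
  · unfold chi
    have h3 : σ μ = μ ↔ σ ν = ν := by
      rw [h, map_neg, neg_inj]
    simp only [h3]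

/-- A pair of linear forms with opposite weights is good. -/
theorem good_pair (h2 : S_good_lin) (h8 : S_L0) (h9 : S_hodge) (h10 : S_wt)
    {A B : AV} (D : KOn A 1) (D' : KOn B 1) (hd : D'.d = D.d) (hs : D'.s = -D.s)
    (h : Fin 1 → (X.H →ₗ[ℚ] A.H)) (hh : ∀ k, IsHom X A (h k))
    (h' : Fin 1 → (X.H →ₗ[ℚ] B.H)) (hh' : ∀ k, IsHom X B (h' k)) :
    Good X (Fin 1 ⊕ Fin 1) (mulF (D.δ.toMultilinearMap.compLinearMap h)
      (D'.δ.toMultilinearMap.compLinearMap h')) := by
  set P := mulF (D.δ.toMultilinearMap.compLinearMap h) (D'.δ.toMultilinearMap.compLinearMap h')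
    with hP
  have hw : ∀ σ : ℂ ≃+* ℂ, HasWeight X.per (conjF σ P) 0 := by
    intro σ
    rw [hP, conjF_mul]
    have e1 := hw_comp (h10 A 1 D σ) h hh
    have e2 := hw_comp (h10 B 1 D' σ) h' hh'
    have e3 := hw_mul e1 e2
    have e4 : D.s * chi D.μ σ + D'.s * chi D'.μ σ = 0 := by
      have e5 : D'.μ * D'.μ = -(D.d : ℂ) := by rw [D'.hμ, hd]
      rw [chi_eq e5 D.hμ σ, hs]
      ring
    rw [e4] at e3
    exact e3
  obtain ⟨n, z, lam, hdec⟩ := decomp P
  obtain ⟨g1, g2, g3⟩ := h2 X (Fin 1 ⊕ Fin 1)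
  rw [hdec]
  let S : Submodule ℂ (MultilinearMap ℚ (fun _ : Fin 1 ⊕ Fin 1 => X.H) ℂ) :=
    { carrier := {F | Good X (Fin 1 ⊕ Fin 1) F}
      zero_mem' := g3
      add_mem' := fun {a b} ha hb => g1 a b ha hb
      smul_mem' := fun c a ha => g2 c a ha }
  refine Submodule.sum_mem S fun j _ => S.smul_mem _ ?_
  exact good_two h9 (by simp) _ (h8 X _ P hw (lam j))

/-! ## The base of the induction -/

theorem good_nil (h1 : S_good_alt) : Good X (V ([] : List (Fac X))) (val []) := by
  have _ : IsEmpty (V ([] : List (Fac X))) := inferInstanceAs (IsEmpty Empty)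
  let f : X.H [⋀^V ([] : List (Fac X))]→ₗ[ℚ] ℚ := AlternatingMap.constOfIsEmpty ℚ X.H _ 1
  have e1 : val ([] : List (Fac X)) = (cx f).toMultilinearMap := by
    ext v
    change (1 : ℂ) = ((1 : ℚ) : ℂ)
    simp
  rw [e1, h1]
  exact Submodule.subset_span ⟨_, Gen.unit _, rfl⟩

/-- Splitting off an element of a list. -/
theorem split_mem {α : Type*} {a : α} {l : List α} (h : a ∈ l) :
    ∃ l', l.Perm (a :: l') := by
  obtain ⟨s, t, rfl⟩ := List.append_of_mem h
  exact ⟨s ++ t, List.perm_middle⟩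

theorem exists_partner {A : AV} {n : ℕ} {D : KOn A n} {h : Fin n → (X.H →ₗ[ℚ] A.H)}
    {hh : ∀ k, IsHom X A (h k)} {l : List (Fac X)} (hl : LBal (.det A n D h hh :: l)) :
    ∃ (B : AV) (m : ℕ) (D' : KOn B m) (h' : Fin m → (X.H →ₗ[ℚ] B.H)) (hh' : ∀ k, IsHom X B (h' k)),
      Fac.det B m D' h' hh' ∈ l ∧ D'.d = D.d ∧ D'.s = -D.s := by
  by_contra hcon
  have h1 := hl D.d
  rw [List.map_cons, List.sum_cons] at h1
  have h2 : (Fac.det A n D h hh : Fac X).wt D.d = D.s := by
    change (if D.d = D.d then D.s else 0) = D.s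
    rw [if_pos rfl]
  rw [h2] at h1
  have h3 : ∀ x ∈ (l.map fun f => D.s * f.wt D.d), 0 ≤ x := by
    intro x hx
    obtain ⟨f, hf, rfl⟩ := List.mem_map.1 hx
    cases f with
    | bil β hβ =>
      change 0 ≤ D.s * 0
      rw [mul_zero]
    | det B m D' h' hh' =>
      change 0 ≤ D.s * (if D'.d = D.d then D'.s else 0)
      split_ifs with hd
      · by_cases hs : D'.s = -D.s
        · exact absurd ⟨B, m, D', h', hh', hf, hd, hs⟩ hcon
        · rcases D.hs with a | a <;> rcases D'.hs with b | b <;> rw [a, b] at hs ⊢ <;> simp at hs ⊢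
      · rw [mul_zero]
  have h4 := List.sum_nonneg h3
  rw [List.sum_map_mul_left] at h4
  have h5 : (l.map fun f => f.wt D.d).sum = -D.s := by linarith
  rw [h5] at h4
  rcases D.hs with a | a <;> rw [a] at h4 <;> simp at h4

theorem three_eq_zero {l : List (Fac X)} (hc : cnt l = 0) {f : Fac X} (hf : f ∈ l) :
    f.three = 0 := by
  unfold cnt at hc
  rw [List.sum_eq_zero_iff] at hc
  exact hc _ (List.mem_map_of_mem hf)

theorem n_eq_one {l : List (Fac X)} (hc : cnt l = 0) {A : AV} {n : ℕ} {D : KOn A n}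
    {h : Fin n → (X.H →ₗ[ℚ] A.H)} {hh : ∀ k, IsHom X A (h k)} (hf : Fac.det A n D h hh ∈ l) :
    n = 1 := by
  have h1 : (if n = 3 then 1 else 0) = 0 := three_eq_zero hc hf
  rcases D.hn with h2 | h2
  · exact h2
  · rw [if_pos h2] at h1
    exact absurd h1 one_ne_zero

theorem base (h1 : S_good_alt) (h2 : S_good_lin) (h3 : S_good_reindex) (h4 : S_good_mul)
    (h8 : S_L0) (h9 : S_hodge) (h10 : S_wt) :
    ∀ (n : ℕ) (l : List (Fac X)), l.length = n → cnt l = 0 → LBal l → Good X (V l) (val l) := by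
  intro n
  induction n using Nat.strong_induction_on with
  | _ n ih =>
    intro l hn hc hb
    cases l with
    | nil => exact good_nil h1
    | cons f l =>
      have hlen : (f :: l).length = l.length + 1 := List.length_cons
      cases f with
      | bil β hβ =>
        have hc' : cnt l = 0 := by
          have e1 : cnt (Fac.bil β hβ :: l) = 0 + cnt l := rfl
          rw [e1, zero_add] at hc
          exact hc
        have hb' : LBal l := by
          intro d
          have e1 := hb d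
          rw [List.map_cons, List.sum_cons] at e1
          have e2 : (Fac.bil β hβ : Fac X).wt d = 0 := rfl
          rw [e2, zero_add] at e1
          exact e1
        have e3 := ih l.length (by omega) l rfl hc' hb'
        exact h4 X (Fin 2) (V l) (cxM β) (val l) (good_two h9 (by simp) β hβ) e3
      | det A m D h hh =>
        obtain rfl := n_eq_one hc (List.mem_cons_self)
        obtain ⟨B, m, D', h', hh', hmem, hd, hs⟩ := exists_partner hb
        obtain rfl := n_eq_one hc (List.mem_cons_of_mem _ hmem)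
        obtain ⟨l', hp⟩ := split_mem hmem
        have hp2 := hp.cons (Fac.det A 1 D h hh)
        have hlen2 := hp.length_eq
        rw [List.length_cons] at hlen2
        have hc2 := hc
        rw [cnt_perm hp2] at hc2
        have hc' : cnt l' = 0 := by
          have e1 : cnt (Fac.det A 1 D h hh :: Fac.det B 1 D' h' hh' :: l') =
            0 + (0 + cnt l') := rfl
          rw [e1, zero_add, zero_add] at hc2
          exact hc2
        have hb' : LBal l' := by
          intro d
          have e1 := (hb.perm hp2) d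
          rw [List.map_cons, List.sum_cons, List.map_cons, List.sum_cons] at e1
          have e2 : (Fac.det A 1 D h hh : Fac X).wt d + (Fac.det B 1 D' h' hh' : Fac X).wt d = 0 := by
            change (if D.d = d then D.s else 0) + (if D'.d = d then D'.s else 0) = 0
            rw [hd, hs]
            split_ifs
            · ring
            · rfl
          linarith
        have e3 := ih l'.length (by omega) l' rfl hc' hb'
        have e4 := good_pair h2 h8 h9 h10 D D' hd hs h hh h' hh'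
        have e5 := h4 X (Fin 1 ⊕ Fin 1) (V l') _ (val l') e4 e3
        refine good_perm h3 hp2.symm ?_
        exact good_eq h3 (Equiv.sumAssoc (Fin 1) (Fin 1) (V l'))
          (fun v => (mul_assoc _ _ _).symm) e5

theorem bal_list (h1 : S_good_alt) (h2 : S_good_lin) (h3 : S_good_reindex) (h4 : S_good_mul)
    (h6 : S_ins) (h7 : S_pol) (h8 : S_L0) (h9 : S_hodge) (h10 : S_wt) (h11 : S_weil)
    (h12 : S_ell) :
    ∀ (c : ℕ) (X : AV) (l : List (Fac X)), cnt l = c → LBal l → Good X (V l) (val l) := by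
  intro c
  induction c with
  | zero =>
    intro X l hc hb
    exact base h1 h2 h3 h4 h8 h9 h10 l.length l rfl hc hb
  | succ c ih =>
    intro X l hc hb
    have h0 : ∃ f ∈ l, f.three ≠ 0 := by
      by_contra hcon
      push Not at hcon
      have e1 : cnt l = 0 := by
        unfold cnt
        rw [List.sum_eq_zero_iff]
        intro x hx
        obtain ⟨f, hf, rfl⟩ := List.mem_map.1 hx
        exact hcon f hf
      omega
    obtain ⟨f, hf, hf3⟩ := h0
    obtain ⟨l', hp⟩ := split_mem hf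
    refine good_perm h3 hp.symm ?_
    have hc2 := hc
    rw [cnt_perm hp] at hc2
    have hb2 := hb.perm hp
    clear hp
    cases f with
    | bil β hβ => exact absurd rfl hf3
    | det A n D h hh =>
      have hn : n = 3 := by
        by_contra hn
        apply hf3
        change (if n = 3 then 1 else 0) = 0
        rw [if_neg hn]
      subst hn
      have hc3 : cnt l' = c := by
        have e1 : cnt (Fac.det A 3 D h hh :: l') = 1 + cnt l' := rfl
        omega
      exact step h3 h6 h7 h11 h12 D h hh l' hb2 fun Y l'' e1 e2 => ih Y l'' (e1.trans hc3) e2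

/-! ## Monomials as lists -/

theorem val_append (l l' : List (Fac X)) :
    ∃ e : V l ⊕ V l' ≃ V (l ++ l'), ∀ v : V (l ++ l') → X.H,
      val (l ++ l') v = val l (fun k => v (e (Sum.inl k))) * val l' (fun k => v (e (Sum.inr k))) := by
  induction l with
  | nil =>
    refine ⟨Equiv.emptySum Empty (V l'), fun v => ?_⟩
    refine (one_mul _).symm.trans ?_
    rfl
  | cons f l ih =>
    obtain ⟨e, he⟩ := ih
    refine ⟨(Equiv.sumAssoc (Fin f.N) (V l) (V l')).trans
      (Equiv.sumCongr (Equiv.refl (Fin f.N)) e), fun v => ?_⟩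
    refine (val_cons _ _ v).trans ?_
    refine (congrArg _ (he fun k => v (Sum.inr k))).trans ?_
    exact (mul_assoc _ _ _).symm

/-- Splitting off the first element of a sigma type. -/
def sigE {m : ℕ} (N : Fin (m + 1) → ℕ) :
    (Σ j : Fin (m + 1), Fin (N j)) ≃ Fin (N 0) ⊕ Σ j : Fin m, Fin (N j.succ) where
  toFun x := Fin.cases (motive := fun j => Fin (N j) → Fin (N 0) ⊕ Σ j : Fin m, Fin (N j.succ))
    (fun k => Sum.inl k) (fun j k => Sum.inr ⟨j, k⟩) x.1 x.2
  invFun := Sum.elim (fun k => ⟨0, k⟩) (fun x => ⟨x.1.succ, x.2⟩)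
  left_inv := by
    rintro ⟨j, k⟩
    induction j using Fin.cases with
    | zero => rfl
    | succ j => rfl
  right_inv := by
    rintro (k | ⟨j, k⟩) <;> rfl

theorem val_ofFn {m : ℕ} (φ : Fin m → Fac X) :
    ∃ e : (Σ j, Fin (φ j).N) ≃ V (List.ofFn φ), ∀ v : V (List.ofFn φ) → X.H,
      val (List.ofFn φ) v = ∏ j, (φ j).F fun k => v (e ⟨j, k⟩) := by
  induction m with
  | zero =>
    have h0 : List.ofFn φ = [] := List.ofFn_zero
    rw [h0]
    have _ : IsEmpty (V ([] : List (Fac X))) := inferInstanceAs (IsEmpty Empty)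
    refine ⟨Equiv.equivOfIsEmpty _ _, fun v => ?_⟩
    rw [Finset.univ_eq_empty, Finset.prod_empty]
    rfl
  | succ m ih =>
    obtain ⟨e, he⟩ := ih fun j => φ j.succ
    have h0 : List.ofFn φ = φ 0 :: List.ofFn fun j => φ j.succ := List.ofFn_succ
    rw [h0]
    refine ⟨(sigE fun j => (φ j).N).trans (Equiv.sumCongr (Equiv.refl _) e), fun v => ?_⟩
    refine (val_cons _ _ v).trans ?_
    rw [he, Fin.prod_univ_succ]
    rfl

/-- JOB T2. -/
theorem bal (h1 : S_good_alt) (h2 : S_good_lin) (h3 : S_good_reindex) (h4 : S_good_mul)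
    (_h5 : S_good_pull) (h6 : S_ins) (h7 : S_pol) (h8 : S_L0) (h9 : S_hodge) (h10 : S_wt)
    (h11 : S_weil) (h12 : S_ell) : S_bal := by
  intro X κ _ _ M hM F hF
  let φ : Fin M.m → Fac X := fun j => .det (M.A j) (M.n j) (M.D j) (M.h j) (M.hh j)
  let ψ : Fin M.p → Fac X := fun q => .bil (M.β q) (M.hβ q)
  obtain ⟨e1, he1⟩ := val_ofFn φ
  obtain ⟨e2, he2⟩ := val_ofFn ψ
  obtain ⟨e3, he3⟩ := val_append (List.ofFn φ) (List.ofFn ψ)
  have hb : LBal (List.ofFn φ ++ List.ofFn ψ) := by
    intro d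
    rw [List.map_append, List.sum_append, List.map_ofFn, List.map_ofFn, List.sum_ofFn,
      List.sum_ofFn]
    have e4 : ∑ q, ((fun f : Fac X => f.wt d) ∘ ψ) q = 0 := Finset.sum_eq_zero fun q _ => rfl
    rw [e4, add_zero]
    exact hM d
  have hg := bal_list h1 h2 h3 h4 h6 h7 h8 h9 h10 h11 h12 _ X _ rfl hb
  let e4 : (Σ q, Fin (ψ q).N) ≃ Fin M.p × Fin 2 := Equiv.sigmaEquivProd (Fin M.p) (Fin 2)
  let e5 : V (List.ofFn φ ++ List.ofFn ψ) ≃ κ :=
    e3.symm.trans ((Equiv.sumCongr e1.symm (e2.symm.trans e4)).trans M.e)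
  have e5l : ∀ (j : Fin M.m) (k : Fin (M.n j)), e5 (e3 (Sum.inl (e1 ⟨j, k⟩))) =
      M.e (Sum.inl ⟨j, k⟩) := by
    intro j k
    change M.e (Equiv.sumCongr e1.symm (e2.symm.trans e4) (e3.symm (e3 (Sum.inl (e1 ⟨j, k⟩))))) = _
    rw [Equiv.symm_apply_apply]
    change M.e (Sum.inl (e1.symm (e1 ⟨j, k⟩))) = _
    rw [Equiv.symm_apply_apply]
    rfl
  have e5r : ∀ (q : Fin M.p) (a : Fin 2), e5 (e3 (Sum.inr (e2 ⟨q, a⟩))) =
      M.e (Sum.inr (q, a)) := by
    intro q a
    change M.e (Equiv.sumCongr e1.symm (e2.symm.trans e4) (e3.symm (e3 (Sum.inr (e2 ⟨q, a⟩))))) = _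
    rw [Equiv.symm_apply_apply]
    change M.e (Sum.inr (e4 (e2.symm (e2 ⟨q, a⟩)))) = _
    rw [Equiv.symm_apply_apply]
    rfl
  refine good_eq h3 e5 (fun v => ?_) hg
  rw [hF, he3, he1, he2]
  unfold Mon.val
  congr 1
  · refine Finset.prod_congr rfl fun j _ => ?_
    change _ = (M.D j).δ fun k => M.h j k (v (e5 (e3 (Sum.inl (e1 ⟨j, k⟩)))))
    congr 1
    funext k
    rw [e5l]
  · refine Finset.prod_congr rfl fun q _ => ?_
    change _ = ((M.β q fun a => v (e5 (e3 (Sum.inr (e2 ⟨q, a⟩)))) : ℚ) : ℂ)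
    congr 2
    funext a
    rw [e5r]

end Pool.Agent.Q210.D3
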